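import Pool.Agent.T9h72.KU.Fin2
import Pool.Agent.T9h8.KU.Zero
import Pool.Agent.T9h12.KU.Convg
import Pool.Agent.T9h36.KU.Kone
import Pool.Agent.T9h41.KU.Law
import Pool.Agent.T9h43.KU.LC
import Pool.Agent.T9h58.KU.ZA
import Pool.Agent.T9h61.KU.OPT
import Pool.Agent.T9h63.KU.PM
import Pool.Agent.T9h64.KU.KUP
import Pool.Agent.T9h64.KU.LP
import Pool.Agent.T9h66.KU.Conc
import Pool.Agent.T9h69.KU.Shape
import Pool.Agent.T9h69.KU.Shape2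
import Pool.Agent.T9h70.KU.M1
import Pool.Agent.T9h70.KU.Pat
import Pool.Agent.T9h71.KU.I1
import Pool.Agent.T9h71.KU.UnifMem
import Pool.Agent.T9h77.KU.Val
import Pool.Agent.T9h77.KU.Klo
import Pool.Agent.T9h89.KU.Ex
import Pool.Agent.T9h89.KU.G0
import Pool.Agent.T9h43.KU.Uniq
import Pool.Agent.T9h66.KU.Reg

/-!
# MP_d11fee_pr, Q2: kth records of symmetric unimodal parents

The value of `D^su(k,n)` for all `k ≥ 1`, `n ≥ 1`.  Definitions of this package: `UniParent`,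
`stdMeansU`, `IsKnot` (`Pool.Agent.T9h72.KU.Spec`); `SymParent`, `mean`, `sd`, `quantile`
(`Pool.Agent.R190.KR.Quant`), `recDens`, `recMean`, `sfun` (`Pool.Agent.R190.KR.Defs`).
-/

set_option autoImplicit false

namespace Pool.Agent.Results.MP_d11fee_pr.SymmetricUnimodal

open MeasureTheory Pool.Agent.R190.KR Pool.Agent.T9h72.KU

/-- Full answer to Q2 of MP_d11fee_pr: `D^su(k,n)` for all `k, n ≥ 1`.  Here `s = sfun k n`,
`(k/(k+1))^(n+1) = 1 - E R` for the uniform parent on `(0,1)` and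
`∫_{1/2}^1 s = (∑_{j ≤ n} (k ln 2)^j / j!) / 2^(k-1) - 1`. -/
theorem result :
    (∀ n : ℕ, 1 ≤ n →
      IntervalIntegrable (fun x => sfun 1 n x ^ 2) volume (1 / 2) 1 ∧
      IsGreatest (stdMeansU 1 n) (Real.sqrt (1 / 2 * ∫ x in (1 / 2 : ℝ)..1, sfun 1 n x ^ 2))) ∧
    ∀ k n : ℕ, 2 ≤ k → 1 ≤ n →
      (1 ≤ 2 * ((k : ℝ) / (k + 1)) ^ (n + 1) → IsLUB (stdMeansU k n) 0) ∧
      (2 * ((k : ℝ) / (k + 1)) ^ (n + 1) < 1 →
        (3 * (1 / 2 - ((k : ℝ) / (k + 1)) ^ (n + 1)) ≤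
            (∑ j ∈ Finset.range (n + 1), (k * Real.log 2) ^ j / j.factorial) / 2 ^ (k - 1) - 1 →
          IsGreatest (stdMeansU k n) (Real.sqrt 3 * (1 - 2 * ((k : ℝ) / (k + 1)) ^ (n + 1)))) ∧
        ((∑ j ∈ Finset.range (n + 1), (k * Real.log 2) ^ j / j.factorial) / 2 ^ (k - 1) - 1 <
            3 * (1 / 2 - ((k : ℝ) / (k + 1)) ^ (n + 1)) →
          ∃ β a : ℝ, IsKnot k n β a ∧ (∀ β' a' : ℝ, IsKnot k n β' a' → β' = β ∧ a' = a) ∧
            IsGreatest (stdMeansU k n)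
              (Real.sqrt (1 / 2 * ((∫ x in (1 / 2 : ℝ)..β, sfun k n x ^ 2) +
                ∫ x in β..1, (sfun k n β + a * (x - β)) ^ 2))))) := by
  have hG0 : S_G0 := Pool.Agent.T9h89.KU.g0
  have hI1 : S_I1 := Pool.Agent.T9h71.KU.i1 hG0
  have hLC : S_LC := Pool.Agent.T9h43.KU.lc hG0
  have hLP : S_LP := Pool.Agent.T9h64.KU.lp hG0 hI1
  have hZA : S_ZA := Pool.Agent.T9h58.KU.za
  have hSH : S_SHAPE := Pool.Agent.T9h69.KU.shape hLC hLP hZA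
  have hSH2 : S_SHAPE2 := Pool.Agent.T9h69.KU.shape2 hLC hLP hZA
  have hPAT : S_PAT := Pool.Agent.T9h70.KU.pat hSH
  have hPM : S_PM := Pool.Agent.T9h63.KU.pm
  have hEX : S_EX := Pool.Agent.T9h89.KU.ex hSH hPM
  have hOPT : S_OPT := Pool.Agent.T9h61.KU.opt Pool.Agent.T9h66.KU.conc
  have hVAL : S_VAL := Pool.Agent.T9h77.KU.val Pool.Agent.T9h41.KU.law
  have hKUP : S_KUP := Pool.Agent.T9h64.KU.kup hOPT hPAT
  have hKLO : S_KLO := Pool.Agent.T9h77.KU.klo hVAL hPAT hPM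
  have hUNIF : S_UNIF := Pool.Agent.T9h71.KU.unif hOPT hPAT hVAL
  have hUNIFM : S_UNIFM := fun n m _ hm _ _ => Pool.Agent.T9h71.KU.unif_mem hVAL n m hm
  have hZERO : S_ZERO := Pool.Agent.T9h8.KU.zero hOPT hVAL
  have hM1 : S_M1 := Pool.Agent.T9h70.KU.m1
  have hCG : S_CONVG := Pool.Agent.T9h12.KU.convg hPAT hPM
  have hUQ : S_UNIQ := Pool.Agent.T9h43.KU.uniq hSH2 hCG Pool.Agent.T9h66.KU.reg
  refine ⟨fun n hn => ?_, fin2 hZERO hUNIF hUNIFM hEX hKUP hKLO hM1 hUQ⟩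
  obtain ⟨h1, h2⟩ := Pool.Agent.T9h36.KU.kone n hn
  exact ⟨h1, Pool.Agent.T9h36.KU.kone_mem n hn, h2.1⟩

end Pool.Agent.Results.MP_d11fee_pr.SymmetricUnimodal
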